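import Mathlib

set_option autoImplicit false

namespace Pool.Agent.Results.MP_59f064_al.EvenPower

universe u

/-- In a pi-regular ring every element has regular powers of arbitrarily large exponent. -/
theorem result (R : Type u) [Ring R]
    (hR : ∀ a : R, ∃ n : ℕ, 1 ≤ n ∧ ∃ x : R, a ^ n = a ^ n * x * a ^ n) (a : R) (N : ℕ) :
    ∃ k : ℕ, 2 ≤ k ∧ N ≤ k ∧ ∃ x : R, a ^ k = a ^ k * x * a ^ k := by
  obtain ⟨n, hn, x, hx⟩ := hR (a ^ (N + 2))
  rw [← pow_mul] at hx
  exact ⟨(N + 2) * n, by nlinarith, by nlinarith, x, hx⟩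

end Pool.Agent.Results.MP_59f064_al.EvenPower
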